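import Pool.Agent.Lib.MP_63e4a9_ag.Defs

open MvPolynomial

namespace Pool.Agent.Lib.MP_63e4a9_ag

variable {k : Type*} [Field k]

attribute [local instance] MvPolynomial.gradedAlgebra

lemma finrank_homog (s : ℕ) (n : ℕ) :
    Module.finrank k (homogeneousSubmodule (Fin s) k n) = (s + n - 1).choose n := by
  classical
  have h1 : homogeneousSubmodule (Fin s) k n =
      restrictSupport k ((Finset.univ.finsuppAntidiag n : Finset (Fin s →₀ ℕ)) :
        Set (Fin s →₀ ℕ)) := by
    rw [homogeneousSubmodule_eq_finsupp_supported]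
    unfold restrictSupport
    congr 1
    ext d
    simp [Finset.mem_finsuppAntidiag, Finsupp.degree_eq_sum]
  rw [h1, Module.finrank_eq_card_basis (basisRestrictSupport k _)]
  simp [Finset.card_finsuppAntidiag_nat_eq_choose]

instance finite_homog (s : ℕ) (n : ℕ) :
    Module.Finite k (homogeneousSubmodule (Fin s) k n) :=
  Module.Finite.iff_fg.mpr (homogeneousSubmodule_fg _ _ _)

lemma comp_mul_of_le {σ : Type*} {F : MvPolynomial σ k} {d : ℕ} (hF : F.IsHomogeneous d)
    (p : MvPolynomial σ k) {n : ℕ} (h : d ≤ n) :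
    homogeneousComponent n (F * p) = F * homogeneousComponent (n - d) p := by
  have := DirectSum.coe_decompose_mul_of_left_mem_of_le (homogeneousSubmodule σ k)
    (a := F) (b := p) (i := d) (n := n) hF h
  simpa [← decomposition.decompose'_apply] using this

lemma comp_mul_of_not_le {σ : Type*} {F : MvPolynomial σ k} {d : ℕ} (hF : F.IsHomogeneous d)
    (p : MvPolynomial σ k) {n : ℕ} (h : ¬ d ≤ n) :
    homogeneousComponent n (F * p) = 0 := by
  have := DirectSum.coe_decompose_mul_of_left_mem_of_not_le (homogeneousSubmodule σ k)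
    (a := F) (b := p) (i := d) (n := n) hF h
  simpa [← decomposition.decompose'_apply] using this

lemma finrank_map_add {V W : Type*} [AddCommGroup V] [Module k V] [AddCommGroup W] [Module k W]
    (f : V →ₗ[k] W) (U : Submodule k V) [Module.Finite k U] :
    Module.finrank k (U.map f) + Module.finrank k (U ⊓ LinearMap.ker f : Submodule k V) =
      Module.finrank k U := by
  have h := LinearMap.finrank_range_add_finrank_ker (f.domRestrict U)
  rw [LinearMap.range_domRestrict, LinearMap.ker_domRestrict] at h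
  rw [← h]
  congr 1
  rw [← Submodule.finrank_map_subtype_eq U, Submodule.map_comap_subtype]

/-- The five conics. -/
noncomputable def w (k : Type*) [Field k] : Fin (4 + 1) → MvPolynomial (Fin 3) k :=
  ![X 0 * X 0, X 0 * X 1, X 1 * X 1 + X 0 * X 2, X 1 * X 2, X 2 * X 2]

noncomputable def Phi (k : Type*) [Field k] :
    MvPolynomial (Fin (4 + 1)) k →ₐ[k] MvPolynomial (Fin 3) k := aeval (w k)

lemma w_homog (i : Fin (4 + 1)) : (w k i).IsHomogeneous 2 := by
  have h : ∀ a b : Fin 3, (X a * X b : MvPolynomial (Fin 3) k).IsHomogeneous 2 := fun a b =>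
    (isHomogeneous_X k a).mul (isHomogeneous_X k b)
  fin_cases i
  · exact h _ _
  · exact h _ _
  · exact (h _ _).add (h _ _)
  · exact h _ _
  · exact h _ _

lemma Phi_homog {f : MvPolynomial (Fin (4 + 1)) k} {m : ℕ} (hf : f.IsHomogeneous m) :
    (Phi k f).IsHomogeneous (2 * m) :=
  hf.aeval (w k) w_homog

lemma Phi_comp (f : MvPolynomial (Fin (4 + 1)) k) (m : ℕ) :
    Phi k (homogeneousComponent m f) = homogeneousComponent (2 * m) (Phi k f) := by
  induction f using MvPolynomial.induction_on' with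
  | monomial u a =>
    have h1 : (monomial u a : MvPolynomial (Fin (4 + 1)) k).IsHomogeneous u.degree :=
      isHomogeneous_monomial a rfl
    have h2 := Phi_homog h1
    rw [homogeneousComponent_of_mem h1, homogeneousComponent_of_mem h2]
    by_cases h : m = u.degree
    · simp [h]
    · have : ¬ 2 * m = 2 * u.degree := by omega
      simp [h, this]
  | add p q hp hq => simp [hp, hq]

/-- The image of the degree `m` forms. -/
noncomputable def W (k : Type*) [Field k] (m : ℕ) : Submodule k (MvPolynomial (Fin 3) k) :=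
  (homogeneousSubmodule (Fin (4 + 1)) k m).map (Phi k).toLinearMap

lemma W_pow (m : ℕ) : W k m = W k 1 ^ m := by
  unfold W
  rw [← homogeneousSubmodule_one_pow _ m, Submodule.map_pow]

lemma W_le (m : ℕ) : W k m ≤ homogeneousSubmodule (Fin 3) k (2 * m) := by
  rintro _ ⟨f, hf, rfl⟩
  exact Phi_homog hf

lemma w_mem (i : Fin (4 + 1)) : w k i ∈ W k 1 :=
  ⟨X i, isHomogeneous_X k i, by simp [Phi]⟩

lemma ww_mem (i j : Fin (4 + 1)) : w k i * w k j ∈ W k 2 := by
  rw [W_pow 2, sq]
  exact Submodule.mul_mem_mul (w_mem i) (w_mem j)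

lemma W_one_eq : W k 1 = Submodule.span k (Set.range (w k)) := by
  unfold W
  rw [homogeneousSubmodule_one_eq_span_X, Submodule.map_span, ← Set.range_comp]
  congr 2
  ext1 i
  simp [Phi]

lemma T_add (a b : ℕ) : homogeneousSubmodule (Fin 3) k (a + b) =
    homogeneousSubmodule (Fin 3) k a * homogeneousSubmodule (Fin 3) k b := by
  rw [← homogeneousSubmodule_one_pow _ (a + b), ← homogeneousSubmodule_one_pow _ a,
    ← homogeneousSubmodule_one_pow _ b, pow_add]

lemma T_two_le : homogeneousSubmodule (Fin 3) k 2 ≤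
    W k 1 ⊔ Submodule.span k {(X 1 * X 1 : MvPolynomial (Fin 3) k)} := by
  rw [show homogeneousSubmodule (Fin 3) k 2 = _ from T_add 1 1,
    homogeneousSubmodule_one_eq_span_X, Submodule.span_mul_span, Submodule.span_le]
  rintro _ ⟨_, ⟨a, rfl⟩, _, ⟨b, rfl⟩, rfl⟩
  have hg : (X 1 * X 1 : MvPolynomial (Fin 3) k) ∈
      W k 1 ⊔ Submodule.span k {(X 1 * X 1 : MvPolynomial (Fin 3) k)} :=
    Submodule.mem_sup_right (Submodule.mem_span_singleton_self _)
  have hw : ∀ i, w k i ∈ W k 1 ⊔ Submodule.span k {(X 1 * X 1 : MvPolynomial (Fin 3) k)} :=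
    fun i => Submodule.mem_sup_left (w_mem i)
  have h02 : (X 0 * X 2 : MvPolynomial (Fin 3) k) ∈
      W k 1 ⊔ Submodule.span k {(X 1 * X 1 : MvPolynomial (Fin 3) k)} := by
    have := Submodule.sub_mem _ (hw 2) hg
    simpa [w] using this
  have h00 := hw 0
  have h01 := hw 1
  have h12 := hw 3
  have h22 := hw 4
  simp only [w, Matrix.cons_val_zero, Matrix.cons_val_one, Matrix.cons_val] at h00 h01 h12 h22
  fin_cases a <;> fin_cases b <;> simp only [SetLike.mem_coe] <;>
    first
      | exact h00 | exact h01 | exact h02 | exact hg | exact h12 | exact h22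
      | exact (mul_comm (X 0 : MvPolynomial (Fin 3) k) (X 1)) ▸ h01
      | exact (mul_comm (X 0 : MvPolynomial (Fin 3) k) (X 2)) ▸ h02
      | exact (mul_comm (X 1 : MvPolynomial (Fin 3) k) (X 2)) ▸ h12

lemma wg_mem (i : Fin (4 + 1)) : w k i * (X 1 * X 1) ∈ W k 2 := by
  fin_cases i
  · convert ww_mem (k := k) 1 1 using 1
    simp [w]; ring
  · convert Submodule.sub_mem _ (ww_mem (k := k) 1 2) (ww_mem (k := k) 0 3) using 1
    simp [w]; ring
  · convert Submodule.sub_mem _ (Submodule.sub_mem _ (ww_mem (k := k) 2 2) (ww_mem (k := k) 1 3))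
      (ww_mem (k := k) 0 4) using 1
    simp [w]; ring
  · convert Submodule.sub_mem _ (ww_mem (k := k) 3 2) (ww_mem (k := k) 1 4) using 1
    simp [w]; ring
  · convert ww_mem (k := k) 3 3 using 1
    simp [w]; ring

lemma gg_mem : (X 1 * X 1) * (X 1 * X 1) ∈ W k 2 := by
  convert Submodule.sub_mem _ (wg_mem (k := k) 2) (ww_mem (k := k) 1 3) using 1
  simp [w]; ring

lemma W1_mul_g : W k 1 * Submodule.span k {(X 1 * X 1 : MvPolynomial (Fin 3) k)} ≤ W k 2 := by
  rw [W_one_eq, Submodule.span_mul_span, Submodule.span_le]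
  rintro _ ⟨_, ⟨a, rfl⟩, _, rfl, rfl⟩
  exact wg_mem a

lemma W_two : W k 2 = homogeneousSubmodule (Fin 3) k 4 := by
  refine le_antisymm (W_le 2) ?_
  rw [show (4 : ℕ) = 2 + 2 from rfl, T_add]
  refine (mul_le_mul' T_two_le T_two_le).trans ?_
  rw [Submodule.mul_sup, Submodule.sup_mul, Submodule.sup_mul]
  refine sup_le (sup_le ?_ ?_) (sup_le W1_mul_g ?_)
  · rw [W_pow 2, sq]
  · rw [mul_comm]; exact W1_mul_g
  · rw [Submodule.span_mul_span, Submodule.span_le]
    rintro _ ⟨_, rfl, _, rfl, rfl⟩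
    exact gg_mem

lemma W1_mul_T2 : W k 1 * homogeneousSubmodule (Fin 3) k 2 = homogeneousSubmodule (Fin 3) k 4 := by
  apply le_antisymm
  · rw [show (4 : ℕ) = 2 + 2 from rfl, T_add]
    exact mul_le_mul' (W_le 1) le_rfl
  · rw [← W_two, W_pow 2, sq]
    exact mul_le_mul' le_rfl (W_le 1)

lemma W_eq (m : ℕ) : W k (m + 2) = homogeneousSubmodule (Fin 3) k (2 * (m + 2)) := by
  induction m with
  | zero => exact W_two
  | succ m ih =>
    rw [W_pow, show m + 1 + 2 = (m + 2) + 1 from rfl, pow_succ', ← W_pow, ih,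
      show 2 * (m + 2) = 2 + (2 * m + 2) by ring, T_add, ← mul_assoc, W1_mul_T2, ← T_add]
    congr 1
    ring

lemma Phi_inj_two {f : MvPolynomial (Fin (4 + 1)) k} (hf : f.IsHomogeneous 2)
    (h : Phi k f = 0) : f = 0 := by
  have h1 := finrank_map_add (Phi k).toLinearMap (homogeneousSubmodule (Fin (4 + 1)) k 2)
  have h2 : (homogeneousSubmodule (Fin (4 + 1)) k 2).map (Phi k).toLinearMap =
      homogeneousSubmodule (Fin 3) k 4 := W_two
  rw [h2, finrank_homog, finrank_homog] at h1
  have h3 : Module.finrank k (homogeneousSubmodule (Fin (4 + 1)) k 2 ⊓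
      LinearMap.ker (Phi k).toLinearMap : Submodule k _) = 0 := by
    have e1 : (3 + 4 - 1).choose 4 = 15 := by decide
    have e2 : (4 + 1 + 2 - 1).choose 2 = 15 := by decide
    omega
  have : Module.Finite k (homogeneousSubmodule (Fin (4 + 1)) k 2 ⊓
      LinearMap.ker (Phi k).toLinearMap : Submodule k _) :=
    Submodule.finiteDimensional_inf_left _ _
  rw [Submodule.finrank_eq_zero] at h3
  have : f ∈ (homogeneousSubmodule (Fin (4 + 1)) k 2 ⊓
      LinearMap.ker (Phi k).toLinearMap : Submodule k _) := ⟨hf, h⟩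
  rw [h3] at this
  exact this

/-- `y ^ 2` is not in the image of `Phi`. -/
lemma g_not_mem (l : MvPolynomial (Fin (4 + 1)) k) : Phi k l ≠ X 1 * X 1 := by
  intro h
  have h1 : Phi k (homogeneousComponent 1 l) = X 1 * X 1 := by
    rw [Phi_comp, h]
    exact homogeneousComponent_eq_self ((isHomogeneous_X k 1).mul (isHomogeneous_X k 1))
  have h2 : (X 1 * X 1 : MvPolynomial (Fin 3) k) ∈ W k 1 :=
    ⟨_, homogeneousComponent_isHomogeneous 1 l, h1⟩
  have h3 : W k 1 = homogeneousSubmodule (Fin 3) k 2 := by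
    refine le_antisymm (W_le 1) (T_two_le.trans (sup_le le_rfl ?_))
    rw [Submodule.span_le]
    rintro _ rfl
    exact h2
  have h4 : Module.finrank k (W k 1) ≤
      Module.finrank k (homogeneousSubmodule (Fin (4 + 1)) k 1) :=
    Submodule.finrank_map_le _ _
  rw [h3, finrank_homog, finrank_homog] at h4
  revert h4
  decide


end Pool.Agent.Lib.MP_63e4a9_ag
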