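import Pool.Agent.Lib.MP_63e4a9_ag.Basic

open MvPolynomial

namespace Pool.Agent.Lib.MP_63e4a9_ag

variable {k : Type*} [Field k]

attribute [local instance] MvPolynomial.gradedAlgebra

/-- The plane curve `x ^ c * z + y ^ (c + 1)` of degree `c + 1`. -/
noncomputable def F (k : Type*) [Field k] (c : ℕ) : MvPolynomial (Fin 3) k :=
  X 0 ^ c * X 2 + X 1 ^ (c + 1)

lemma F_homog (c : ℕ) : (F k c).IsHomogeneous (c + 1) :=
  ((isHomogeneous_X_pow 0 c).mul (isHomogeneous_X k 2)).add (isHomogeneous_X_pow 1 (c + 1))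

lemma F_irred (c : ℕ) : Irreducible (F k c) := by
  classical
  unfold F
  apply irreducible_mul_X_add
  · exact pow_ne_zero _ (X_ne_zero _)
  · intro h
    have := vars_pow _ _ h
    simp at this
  · intro h
    have := vars_pow _ _ h
    simp at this
  · apply IsRelPrime.pow
    rw [(X_prime (R := k) (i := (0 : Fin 3))).irreducible.isRelPrime_iff_not_dvd, X_dvd_X]
    decide

lemma F_prime (c : ℕ) : Prime (F k c) := (F_irred c).prime

/-- The ideal of the image of the plane curve on the projected Veronese surface. -/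
noncomputable def curveIdeal (k : Type*) [Field k] (c : ℕ) :
    Ideal (MvPolynomial (Fin (4 + 1)) k) :=
  (Ideal.span {F k c}).comap (Phi k)

lemma mem_curveIdeal {c : ℕ} {f : MvPolynomial (Fin (4 + 1)) k} :
    f ∈ curveIdeal k c ↔ F k c ∣ Phi k f := by
  simp [curveIdeal, Ideal.mem_comap, Ideal.mem_span_singleton]

lemma curve_prime (c : ℕ) : (curveIdeal k c).IsPrime := by
  have : (Ideal.span {F k c}).IsPrime :=
    (Ideal.span_singleton_prime (F_prime c).ne_zero).mpr (F_prime c)
  exact Ideal.comap_isPrime _ _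

lemma eq_zero_of_dvd {c n : ℕ} {p : MvPolynomial (Fin 3) k} (hp : p.IsHomogeneous n)
    (hn : n ≤ c) (h : F k c ∣ p) : p = 0 := by
  obtain ⟨q, rfl⟩ := h
  rw [← homogeneousComponent_eq_self hp]
  exact comp_mul_of_not_le (F_homog c) q (by omega)

lemma curve_homog (c : ℕ) : ∀ f ∈ curveIdeal k c, ∀ m : ℕ,
    homogeneousComponent m f ∈ curveIdeal k c := by
  intro f hf m
  rw [mem_curveIdeal] at hf ⊢
  obtain ⟨q, hq⟩ := hf
  rw [Phi_comp, hq]
  by_cases h : c + 1 ≤ 2 * m
  · rw [comp_mul_of_le (F_homog c) q h]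
    exact dvd_mul_right _ _
  · rw [comp_mul_of_not_le (F_homog c) q h]
    exact dvd_zero _

lemma X0_not_mem {c : ℕ} (hc : 4 ≤ c) : (X 0 : MvPolynomial (Fin (4 + 1)) k) ∉ curveIdeal k c := by
  intro h
  rw [mem_curveIdeal] at h
  have h1 := eq_zero_of_dvd (Phi_homog (isHomogeneous_X k 0)) (by omega) h
  simp [Phi, w] at h1

lemma curve_variety {c : ℕ} (hc : 4 ≤ c) : IsVarietyIdeal (curveIdeal k c) :=
  ⟨curve_prime c, curve_homog c, fun h =>
    X0_not_mem hc (h (Ideal.subset_span ⟨0, rfl⟩))⟩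

lemma mem_saturation {N : ℕ} {J : Ideal (MvPolynomial (Fin (N + 1)) k)}
    {f : MvPolynomial (Fin (N + 1)) k} :
    f ∈ saturation J ↔ ∃ r : ℕ, ∀ g ∈ irrel k N ^ r, f * g ∈ J := by
  unfold saturation
  rw [Submodule.mem_iSup_of_directed]
  · simp [Submodule.mem_colon]
  · apply Monotone.directed_le
    intro a b hab
    apply Submodule.colon_mono le_rfl
    exact Ideal.pow_le_pow_right hab

lemma curve_noQuadric {c : ℕ} (hc : 4 ≤ c) : NoHypersurface (curveIdeal k c) 2 := by
  intro f hf h2
  obtain ⟨r, hr⟩ := mem_saturation.mp hf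
  have h1 : f * X 0 ^ r ∈ curveIdeal k c :=
    hr _ (Ideal.pow_mem_pow (I := irrel k 4) (Ideal.subset_span ⟨0, rfl⟩) r)
  have h3 : f ∈ curveIdeal k c := by
    rcases (curve_prime c).mem_or_mem h1 with h | h
    · exact h
    · exact absurd ((curve_prime c).mem_of_pow_mem r h) (X0_not_mem hc)
  rw [mem_curveIdeal] at h3
  exact Phi_inj_two h2 (eq_zero_of_dvd (Phi_homog h2) hc h3)

lemma hilbertFn_curve (c m : ℕ) (hm : c + 1 ≤ 2 * (m + 2)) :
    hilbertFn (curveIdeal k c) (m + 2) + (2 * (m + 2) - (c + 1) + 2).choose 2 =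
      (2 * (m + 2) + 2).choose 2 := by
  set n := 2 * (m + 2) with hn
  have hinj : Function.Injective
      (Ideal.quotientMapₐ (Ideal.span {F k c}) (Phi k) (I := curveIdeal k c) le_rfl) :=
    Ideal.quotientMap_injective
  have e1 : hilbertFn (curveIdeal k c) (m + 2) = Module.finrank k
      ((homogeneousSubmodule (Fin 3) k n).map
        (Ideal.Quotient.mkₐ k (Ideal.span {F k c})).toLinearMap) := by
    unfold hilbertFn
    rw [← W_eq, W, ← Submodule.map_comp]
    rw [(Submodule.equivMapOfInjective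
      (Ideal.quotientMapₐ (Ideal.span {F k c}) (Phi k) (I := curveIdeal k c) le_rfl).toLinearMap
      hinj _).finrank_eq, ← Submodule.map_comp]
    rfl
  have e2 := finrank_map_add (Ideal.Quotient.mkₐ k (Ideal.span {F k c})).toLinearMap
    (homogeneousSubmodule (Fin 3) k n)
  have e3 : (homogeneousSubmodule (Fin 3) k n ⊓
      LinearMap.ker (Ideal.Quotient.mkₐ k (Ideal.span {F k c})).toLinearMap : Submodule k _) =
      (homogeneousSubmodule (Fin 3) k (n - (c + 1))).map (LinearMap.mulLeft k (F k c)) := by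
    ext p
    simp only [Submodule.mem_inf, mem_homogeneousSubmodule, LinearMap.mem_ker,
      AlgHom.toLinearMap_apply, Ideal.Quotient.mkₐ_eq_mk, Ideal.Quotient.eq_zero_iff_mem,
      Ideal.mem_span_singleton, Submodule.mem_map, LinearMap.mulLeft_apply]
    constructor
    · rintro ⟨hp, q, rfl⟩
      refine ⟨homogeneousComponent (n - (c + 1)) q, homogeneousComponent_isHomogeneous _ _, ?_⟩
      rw [← comp_mul_of_le (F_homog c) q hm, homogeneousComponent_eq_self hp]
    · rintro ⟨q, hq, rfl⟩
      refine ⟨?_, dvd_mul_right _ _⟩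
      have := (F_homog (k := k) c).mul hq
      rwa [show c + 1 + (n - (c + 1)) = n by omega] at this
  have hinj2 : Function.Injective (LinearMap.mulLeft k (F k c)) :=
    mul_right_injective₀ (F_prime c).ne_zero
  rw [e3, ← (Submodule.equivMapOfInjective _ hinj2 _).finrank_eq, finrank_homog,
    finrank_homog, ← e1] at e2
  have c1 : ∀ a : ℕ, (3 + a - 1).choose a = (a + 2).choose 2 := by
    intro a
    rw [show 3 + a - 1 = a + 2 by omega]
    exact Nat.choose_symm_add
  rw [c1, c1] at e2
  exact e2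

lemma curve_dimDeg (c : ℕ) : HasDimDeg (curveIdeal k c) 1 (2 * (c + 1)) := by
  refine ⟨by omega, Polynomial.C (2 * (c + 1 : ℚ)) * Polynomial.X +
    Polynomial.C ((3 * (c + 1 : ℚ) - (c + 1) ^ 2) / 2), ⟨c + 2, ?_⟩, ?_, ?_⟩
  · intro m hm
    obtain ⟨m, rfl⟩ : ∃ m', m = m' + 2 := ⟨m - 2, by omega⟩
    have h := hilbertFn_curve (k := k) c m (by omega)
    obtain ⟨a, ha⟩ : ∃ a, 2 * (m + 2) = a + (c + 1) := ⟨2 * (m + 2) - (c + 1), by omega⟩
    rw [ha, show a + (c + 1) - (c + 1) = a by omega] at h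
    have h' := congrArg (Nat.cast : ℕ → ℚ) h
    push_cast [Nat.cast_choose_two] at h'
    have ha' := congrArg (Nat.cast : ℕ → ℚ) ha
    push_cast at ha'
    simp only [Polynomial.eval_add, Polynomial.eval_mul, Polynomial.eval_C, Polynomial.eval_X]
    push_cast
    have : (a : ℚ) = 2 * (m + 2) - (c + 1) := by linarith
    rw [this] at h'
    linarith
  · apply Polynomial.natDegree_linear
    positivity
  · rw [Polynomial.leadingCoeff_linear (by positivity)]
    simp

lemma exists_left_inv {a b : ℕ} (A : Matrix (Fin a) (Fin b) k) (hA : A.rank = b) :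
    ∃ B : Matrix (Fin b) (Fin a) k, B * A = 1 := by
  have h1 := LinearMap.finrank_range_add_finrank_ker A.mulVecLin
  have h2 : LinearMap.ker A.mulVecLin = ⊥ := by
    rw [← Submodule.finrank_eq_zero]
    unfold Matrix.rank at hA
    simp only [Module.finrank_fintype_fun_eq_card, Fintype.card_fin] at h1
    omega
  obtain ⟨g, hg⟩ := LinearMap.exists_leftInverse_of_injective A.mulVecLin h2
  refine ⟨LinearMap.toMatrix' g, ?_⟩
  apply Matrix.toLin'.injective
  rw [Matrix.toLin'_mul, Matrix.toLin'_toMatrix', Matrix.toLin'_one]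
  exact hg

lemma pullback_X {N m : ℕ} (A : Matrix (Fin (N + 1)) (Fin (m + 1)) k) (i : Fin (N + 1)) :
    pullback A (X i) = ∑ j, C (A i j) * X j := by
  simp [pullback]

lemma pullback_lin {N m : ℕ} (A : Matrix (Fin (N + 1)) (Fin (m + 1)) k) (c : Fin (N + 1) → k) :
    pullback A (∑ i, C (c i) * X i) = ∑ j, C (Matrix.vecMul c A j) * X j := by
  simp only [map_sum, map_mul, pullback_X, Matrix.vecMul, dotProduct, Finset.mul_sum,
    Finset.sum_mul, algHom_C, algebraMap_eq]
  rw [Finset.sum_comm]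
  simp only [mul_assoc]

lemma pullback_homog {N m n : ℕ} (A : Matrix (Fin (N + 1)) (Fin (m + 1)) k)
    {f : MvPolynomial (Fin (N + 1)) k} (hf : f.IsHomogeneous n) :
    (pullback A f).IsHomogeneous n := by
  have := hf.aeval (n := 1) (fun i => ∑ j, C (A i j) * (X j : MvPolynomial (Fin (m + 1)) k))
    (fun i => IsHomogeneous.sum _ _ _ fun j _ => isHomogeneous_C_mul_X _ _)
  rw [one_mul] at this
  exact this

lemma pullback_pullback {N m : ℕ} (A : Matrix (Fin (N + 1)) (Fin (m + 1)) k)
    (B : Matrix (Fin (m + 1)) (Fin (N + 1)) k) (hB : B * A = 1)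
    (q : MvPolynomial (Fin (m + 1)) k) : pullback A (pullback B q) = q := by
  have : (pullback A).comp (pullback B) = AlgHom.id k _ := by
    apply MvPolynomial.algHom_ext
    intro j
    rw [AlgHom.comp_apply, pullback_X, pullback_lin]
    have : Matrix.vecMul (B j) A = (B * A) j := by
      ext l; simp [Matrix.vecMul, Matrix.mul_apply, dotProduct]
    rw [this, hB]
    simp [Matrix.one_apply, apply_ite]
  exact DFunLike.congr_fun this q

/-- Every hyperplane section of the projected Veronese surface lies on a quadric. -/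
lemma section_quadric (I : Ideal (MvPolynomial (Fin (4 + 1)) k))
    (hI : ∀ f, Phi k f = 0 → f ∈ I)
    (A : Matrix (Fin (4 + 1)) (Fin (3 + 1)) k) (hA : A.rank = 3 + 1) :
    ¬ NoHypersurface (I.map (pullback A)) 2 := by
  obtain ⟨B, hB⟩ := exists_left_inv A hA
  obtain ⟨c, hc, hc0⟩ : ∃ c : Fin (4 + 1) → k, Matrix.vecMul c A = 0 ∧ c ≠ 0 := by
    have := LinearMap.ker_ne_bot_of_finrank_lt (f := A.vecMulLinear) (by simp)
    obtain ⟨c, hc, hc0⟩ := (Submodule.ne_bot_iff _).mp this
    exact ⟨c, hc, hc0⟩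
  set h : MvPolynomial (Fin (4 + 1)) k := ∑ i, C (c i) * X i with hh
  have h_homog : h.IsHomogeneous 1 :=
    IsHomogeneous.sum _ _ _ fun j _ => isHomogeneous_C_mul_X _ _
  have h_ne : h ≠ 0 := by
    intro h0
    apply hc0
    ext i
    have := congrArg (eval (Pi.single i (1 : k))) h0
    simpa [hh, Pi.single_apply] using this
  have hA0 : pullback A h = 0 := by
    rw [hh, pullback_lin, hc]; simp
  have hPhi : Phi k h ≠ 0 := by
    intro h0
    have := Phi_inj_two (h_homog.mul h_homog) (by rw [map_mul, h0, mul_zero])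
    exact h_ne (mul_self_eq_zero.mp this)
  let θ : (homogeneousSubmodule (Fin (3 + 1)) k 2 × homogeneousSubmodule (Fin 3) k 2) →ₗ[k]
      homogeneousSubmodule (Fin 3) k 4 :=
    LinearMap.codRestrict _
      (LinearMap.coprod
        (((Phi k).comp (pullback B)).toLinearMap ∘ₗ Submodule.subtype _)
        (-(LinearMap.mulLeft k (Phi k h)) ∘ₗ Submodule.subtype _))
      (by
        rintro ⟨q, g⟩
        have h1 := Phi_homog (pullback_homog B q.2)
        have h2 := (Phi_homog h_homog).mul g.2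
        exact Submodule.add_mem _ h1 (Submodule.neg_mem _ h2))
  have hθ := LinearMap.ker_ne_bot_of_finrank_lt (f := θ) (by
    rw [Module.finrank_prod, finrank_homog, finrank_homog, finrank_homog]; decide)
  obtain ⟨⟨q, g⟩, hqg, hne⟩ := (Submodule.ne_bot_iff _).mp hθ
  have hqg' : Phi k (pullback B q) = Phi k h * g := by
    have := congrArg Subtype.val (LinearMap.mem_ker.mp hqg)
    simpa [θ, add_neg_eq_zero] using this
  have hq : (q : MvPolynomial (Fin (3 + 1)) k) ≠ 0 := by
    intro h0
    rw [h0, map_zero, map_zero] at hqg'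
    have hg : (g : MvPolynomial (Fin 3) k) = 0 := (mul_eq_zero.mp hqg'.symm).resolve_left hPhi
    apply hne
    ext1
    · exact Subtype.ext h0
    · exact Subtype.ext hg
  intro hN
  refine hq (hN q ?_ q.2)
  have key : ∀ i, (q : MvPolynomial (Fin (3 + 1)) k) * pullback A (X i) ∈
      I.map (pullback A) := by
    intro i
    have : w k i * g ∈ W k 2 := by
      rw [W_two]; exact (w_homog i).mul g.2
    obtain ⟨G, -, hG⟩ := this
    have h1 : pullback B q * X i - h * G ∈ I := by
      apply hI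
      have hG' : Phi k G = w k i * g := hG
      have hX : Phi k (X i) = w k i := by simp [Phi]
      rw [map_sub, map_mul, map_mul, hqg', hG', hX]
      ring
    have h2 := Ideal.mem_map_of_mem (pullback A) h1
    rwa [map_sub, map_mul, map_mul, hA0, zero_mul, sub_zero, pullback_pullback A B hB] at h2
  rw [mem_saturation]
  refine ⟨1, fun y hy => ?_⟩
  rw [pow_one] at hy
  refine Submodule.span_induction ?_ ?_ ?_ ?_ hy
  · rintro _ ⟨j, rfl⟩
    rw [← pullback_pullback A B hB (X j), pullback_X, map_sum, Finset.mul_sum]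
    refine Ideal.sum_mem _ fun i _ => ?_
    rw [map_mul, mul_left_comm]
    exact Ideal.mul_mem_left _ _ (key i)
  · simp
  · intro a b _ _ ha hb
    rw [mul_add]; exact Ideal.add_mem _ ha hb
  · intro a b _ hb
    rw [smul_eq_mul, mul_left_comm]; exact Ideal.mul_mem_left _ _ hb

lemma exists_general [Infinite k] (G : MvPolynomial (Fin (4 + 1) × Fin (3 + 1)) k) (hG : G ≠ 0) :
    ∃ A : Matrix (Fin (4 + 1)) (Fin (3 + 1)) k,
      eval (fun p => A p.1 p.2) G ≠ 0 ∧ A.rank = 3 + 1 := by
  classical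
  let M : Matrix (Fin (3 + 1)) (Fin (3 + 1)) (MvPolynomial (Fin (4 + 1) × Fin (3 + 1)) k) :=
    Matrix.of fun i j => X (i.castSucc, j)
  have hev : ∀ A : Matrix (Fin (4 + 1)) (Fin (3 + 1)) k,
      eval (fun p => A p.1 p.2) M.det = (A.submatrix Fin.castSucc id).det := by
    intro A
    rw [RingHom.map_det]
    congr 1
    ext i j
    simp [M]
  have hM : M.det ≠ 0 := by
    intro h0
    have := hev (Matrix.of fun i j => if i = j.castSucc then 1 else 0)
    rw [h0, map_zero] at this
    have h1 : Matrix.submatrix (Matrix.of fun (i : Fin (4 + 1)) (j : Fin (3 + 1)) =>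
        if i = j.castSucc then (1 : k) else 0) Fin.castSucc id = 1 := by
      ext i j
      simp [Matrix.one_apply]
    rw [h1, Matrix.det_one] at this
    exact zero_ne_one this
  have hGM : G * M.det ≠ 0 := mul_ne_zero hG hM
  obtain ⟨x, hx⟩ : ∃ x, eval x (G * M.det) ≠ 0 := by
    by_contra hcon
    push Not at hcon
    exact hGM (MvPolynomial.funext fun x => by rw [hcon x, map_zero])
  rw [map_mul] at hx
  refine ⟨fun i j => x (i, j), left_ne_zero_of_mul hx, ?_⟩
  have h2 := right_ne_zero_of_mul hx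
  have h3 := hev (fun i j => x (i, j))
  have h4 : (Matrix.submatrix (fun i j => x (i, j)) Fin.castSucc id :
      Matrix (Fin (3 + 1)) (Fin (3 + 1)) k).det ≠ 0 := by
    rw [← h3]; exact h2
  apply le_antisymm
  · simpa using Matrix.rank_le_width (fun i j => x (i, j) : Matrix (Fin (4 + 1)) (Fin (3 + 1)) k)
  · have h5 := Matrix.rank_of_isUnit _ ((Matrix.isUnit_iff_isUnit_det _).mpr (Ne.isUnit h4))
    have h6 := Matrix.rank_submatrix_le
      (fun i j => x (i, j) : Matrix (Fin (4 + 1)) (Fin (3 + 1)) k) Fin.castSucc (Equiv.refl _)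
    simp only [Fintype.card_fin] at h5
    exact h5.symm.le.trans h6

lemma curve_not_ND [Infinite k] (c : ℕ) : ¬ ND (curveIdeal k c) 3 2 := by
  intro h
  obtain ⟨G, hG, h⟩ := h 3 le_rfl (by norm_num)
  obtain ⟨A, hA, hr⟩ := exists_general G hG
  refine section_quadric _ (fun f hf => ?_) A hr (h A hA hr)
  rw [mem_curveIdeal, hf]
  exact dvd_zero _

end Pool.Agent.Lib.MP_63e4a9_ag
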