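import Mathlib

/-!
Definitions for closed subschemes of projective space `P^N` over a field `k`, given by
homogeneous ideals of `k[x_0, ..., x_N]`.
-/

open MvPolynomial

namespace Pool.Agent.Lib.MP_63e4a9_ag

variable {k : Type*} [Field k]

/-- The irrelevant ideal `(x_0, ..., x_N)`. -/
noncomputable def irrel (k : Type*) [Field k] (N : ℕ) : Ideal (MvPolynomial (Fin (N + 1)) k) :=
  Ideal.span (Set.range X)

/-- `I` is the ideal `I_X` of a variety (an integral closed subscheme) `X` of `P^N`: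
a homogeneous prime ideal not containing the irrelevant ideal. -/
def IsVarietyIdeal {N : ℕ} (I : Ideal (MvPolynomial (Fin (N + 1)) k)) : Prop :=
  I.IsPrime ∧ (∀ f ∈ I, ∀ m : ℕ, homogeneousComponent m f ∈ I) ∧ ¬ irrel k N ≤ I

/-- The Hilbert function `m ↦ dim_k (k[x]/I)_m`. -/
noncomputable def hilbertFn {N : ℕ} (I : Ideal (MvPolynomial (Fin (N + 1)) k)) (m : ℕ) : ℕ :=
  Module.finrank k
    ((homogeneousSubmodule (Fin (N + 1)) k m).map (Ideal.Quotient.mkₐ k I).toLinearMap)

/-- The Hilbert polynomial of `k[x]/I` has degree `n` and leading coefficient `d / n!` with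
`d > 0`: the subscheme has dimension `n` and degree `d`. -/
def HasDimDeg {N : ℕ} (I : Ideal (MvPolynomial (Fin (N + 1)) k)) (n d : ℕ) : Prop :=
  0 < d ∧ ∃ P : Polynomial ℚ,
    (∃ m₀ : ℕ, ∀ m : ℕ, m₀ ≤ m → (hilbertFn I m : ℚ) = P.eval (m : ℚ)) ∧
    P.natDegree = n ∧ P.leadingCoeff * (n.factorial : ℚ) = (d : ℚ)

/-- The saturation `J : (x_0, ..., x_N)^∞` of an ideal. -/
noncomputable def saturation {N : ℕ} (J : Ideal (MvPolynomial (Fin (N + 1)) k)) :
    Ideal (MvPolynomial (Fin (N + 1)) k) :=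
  ⨆ r : ℕ, J.colon ((irrel k N ^ r : Ideal (MvPolynomial (Fin (N + 1)) k)) :
    Set (MvPolynomial (Fin (N + 1)) k))

/-- `H^0(I_Z(l)) = 0` for the subscheme `Z` of `P^N` defined by the homogeneous ideal `J`:
the saturation of `J` has no nonzero form of degree `l`. -/
def NoHypersurface {N : ℕ} (J : Ideal (MvPolynomial (Fin (N + 1)) k)) (l : ℕ) : Prop :=
  ∀ f ∈ saturation J, f.IsHomogeneous l → f = 0

/-- Pull-back of forms along the linear map `k^(m+1) → k^(N+1)` with matrix `A`: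
`x_i ↦ ∑ j, A i j * y_j`. -/
noncomputable def pullback {N m : ℕ} (A : Matrix (Fin (N + 1)) (Fin (m + 1)) k) :
    MvPolynomial (Fin (N + 1)) k →ₐ[k] MvPolynomial (Fin (m + 1)) k :=
  aeval fun i => ∑ j, C (A i j) * X j

/-- Condition `ND(l)` for the subscheme `X` of `P^N` with ideal `I` and codimension `e`:
for every `m` with `e ≤ m ≤ N`, for a general linear subspace `Λ = P(image of A) ≅ P^m`
(all full-rank matrices `A` off the zero set of some nonzero polynomial `G` in the entries),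
`H^0(I_{X ∩ Λ / Λ}(l)) = 0`. -/
def ND {N : ℕ} (I : Ideal (MvPolynomial (Fin (N + 1)) k)) (e l : ℕ) : Prop :=
  ∀ m : ℕ, e ≤ m → m ≤ N →
    ∃ G : MvPolynomial (Fin (N + 1) × Fin (m + 1)) k, G ≠ 0 ∧
      ∀ A : Matrix (Fin (N + 1)) (Fin (m + 1)) k,
        eval (fun p => A p.1 p.2) G ≠ 0 → A.rank = m + 1 →
          NoHypersurface (I.map (pullback A)) l

end Pool.Agent.Lib.MP_63e4a9_ag
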