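import Pool.Agent.Lib.MP_63e4a9_ag.Curve

/-!
The `q`-th powers of the linear forms `x + s y + s ^ 2 z` span a space of dimension `2 q + 1`
whose pairwise products span all ternary forms of degree `2 q`.
-/

open MvPolynomial

namespace Pool.Agent.Lib.MP_63e4a9_ag

variable {k : Type*} [Field k]

/-- If infinitely many values of a polynomial lie in a subspace, so do its coefficients. -/
lemma coeff_mem_of_eval {A : Type*} [CommRing A] [Algebra k A] (P : Polynomial A)
    (M : Submodule k A) {T : Set k} (hT : T.Infinite)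
    (h : ∀ s ∈ T, P.eval (algebraMap k A s) ∈ M) (i : ℕ) : P.coeff i ∈ M := by
  rw [← Subspace.forall_mem_dualAnnihilator_apply_eq_zero_iff]
  intro φ hφ
  rw [Submodule.mem_dualAnnihilator] at hφ
  have h0 : (∑ j ∈ Finset.range (P.natDegree + 1),
      Polynomial.monomial j (φ (P.coeff j)) : Polynomial k) = 0 := by
    apply Polynomial.eq_zero_of_infinite_isRoot
    refine hT.mono fun s hs => ?_
    have h1 := hφ _ (h s hs)
    rw [Polynomial.eval_eq_sum_range, map_sum] at h1
    simp only [Set.mem_ofPred_eq, Polynomial.IsRoot.def, Polynomial.eval_finsetSum,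
      Polynomial.eval_monomial]
    rw [← h1]
    refine Finset.sum_congr rfl fun j _ => ?_
    rw [← map_pow, mul_comm (P.coeff j), ← Algebra.smul_def, map_smul, smul_eq_mul, mul_comm]
  by_cases hi : i < P.natDegree + 1
  · have h2 := congrArg (fun p => Polynomial.coeff p i) h0
    simp only [Polynomial.finsetSum_coeff, Polynomial.coeff_monomial, Polynomial.coeff_zero,
      Finset.sum_ite_eq', Finset.mem_range, hi, if_true] at h2
    exact h2
  · rw [Polynomial.coeff_eq_zero_of_natDegree_lt (by omega), map_zero]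

lemma eval_mem_of_coeff {A : Type*} [CommRing A] [Algebra k A] (P : Polynomial A)
    (M : Submodule k A) {n : ℕ} (hn : P.natDegree < n) (h : ∀ i < n, P.coeff i ∈ M) (s : k) :
    P.eval (algebraMap k A s) ∈ M := by
  rw [Polynomial.eval_eq_sum_range' hn]
  refine M.sum_mem fun j hj => ?_
  rw [← map_pow, mul_comm, ← Algebra.smul_def]
  exact M.smul_mem _ (h j (Finset.mem_range.mp hj))

/-- The linear form `x + s y + s ^ 2 z`. -/
noncomputable def lin (s : k) : MvPolynomial (Fin 3) k := X 0 + C s * X 1 + C s ^ 2 * X 2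

/-- Its `q`-th power as a polynomial in `s`. -/
noncomputable def linPow (k : Type*) [Field k] (q : ℕ) : Polynomial (MvPolynomial (Fin 3) k) :=
  (Polynomial.C (X 0) + Polynomial.X * Polynomial.C (X 1) +
    Polynomial.X ^ 2 * Polynomial.C (X 2)) ^ q

lemma eval_linPow (q : ℕ) (s : k) :
    (linPow k q).eval (algebraMap k (MvPolynomial (Fin 3) k) s) = lin s ^ q := by
  simp only [linPow, lin, Polynomial.eval_pow, Polynomial.eval_add, Polynomial.eval_mul,
    Polynomial.eval_C, Polynomial.eval_X, algebraMap_eq]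

lemma natDegree_linPow (q : ℕ) : (linPow k q).natDegree < 2 * q + 1 := by
  have h : (Polynomial.C (X 0) + Polynomial.X * Polynomial.C (X 1) +
      Polynomial.X ^ 2 * Polynomial.C (X 2) :
        Polynomial (MvPolynomial (Fin 3) k)).natDegree ≤ 2 := by
    compute_degree
  have h2 := Polynomial.natDegree_pow_le_of_le q h
  unfold linPow
  omega

lemma lin_homog (s : k) : (lin s).IsHomogeneous 1 := by
  unfold lin
  rw [← map_pow]
  exact ((isHomogeneous_X k 0).add (isHomogeneous_C_mul_X _ _)).add (isHomogeneous_C_mul_X _ _)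

lemma lin_pow_homog (s : k) (q : ℕ) : (lin s ^ q).IsHomogeneous q := by
  simpa using (lin_homog s).pow q

/-- The span of the `q`-th powers. -/
noncomputable def U (k : Type*) [Field k] (q : ℕ) : Submodule k (MvPolynomial (Fin 3) k) :=
  Submodule.span k (Set.range fun s : k => lin s ^ q)

lemma U_le (q : ℕ) : U k q ≤ homogeneousSubmodule (Fin 3) k q := by
  rw [U, Submodule.span_le]
  rintro _ ⟨s, rfl⟩
  exact lin_pow_homog s q

lemma pow_mem_U (s : k) (q : ℕ) : lin s ^ q ∈ U k q := Submodule.subset_span ⟨s, rfl⟩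

lemma lin_dense [Infinite k] (s u : k) (q : ℕ) (M : Submodule k (MvPolynomial (Fin 3) k))
    (h : ∀ t, t ≠ s → lin t ^ q ∈ M) : lin u ^ q ∈ M := by
  rw [← eval_linPow]
  refine eval_mem_of_coeff _ M (natDegree_linPow q) (fun i _ => ?_) u
  refine coeff_mem_of_eval _ M (Set.finite_singleton s).infinite_compl (fun t ht => ?_) i
  rw [eval_linPow]
  exact h t ht

lemma finite_U (q : ℕ) : Module.Finite k (U k q) := Submodule.finiteDimensional_of_le (U_le q)

lemma le_finrank_U [CharZero k] (m : ℕ) : 2 * m + 1 ≤ Module.finrank k (U k m) := by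
  classical
  have := finite_U (k := k) m
  let ψ : MvPolynomial (Fin 3) k →ₐ[k] Polynomial k :=
    aeval ![1, 2 * Polynomial.X, Polynomial.X ^ 2]
  have h1 : ∀ s : k, ψ (lin s ^ m) = (1 + Polynomial.C s * Polynomial.X) ^ (2 * m) := by
    intro s
    rw [map_pow, pow_mul]
    congr 1
    simp [ψ, lin]
    ring
  have h2 : ∀ i, i < 2 * m + 1 → Polynomial.X ^ i ∈ (U k m).map ψ.toLinearMap := by
    intro i hi
    have h3 := coeff_mem_of_eval
      ((Polynomial.X * Polynomial.C (Polynomial.X : Polynomial k) + 1) ^ (2 * m))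
      ((U k m).map ψ.toLinearMap) (Set.infinite_univ (α := k)) (fun s _ => by
        refine ⟨_, pow_mem_U s m, ?_⟩
        rw [AlgHom.toLinearMap_apply, h1]
        simp [add_comm]) i
    have h4 : ((Polynomial.X * Polynomial.C (Polynomial.X : Polynomial k) + 1) ^ (2 * m)).coeff i
        = ((2 * m).choose i : k) • Polynomial.X ^ i := by
      rw [add_pow, Polynomial.finsetSum_coeff, Finset.sum_eq_single i]
      · rw [one_pow, mul_one, mul_pow, ← Polynomial.C_pow, ← Polynomial.C_eq_natCast, mul_assoc,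
          ← Polynomial.C_mul, Polynomial.coeff_mul_C, Polynomial.coeff_X_pow, if_pos rfl, one_mul,
          mul_comm, ← nsmul_eq_mul, Nat.cast_smul_eq_nsmul]
      · intro j _ hj
        rw [one_pow, mul_one, mul_pow, ← Polynomial.C_pow, ← Polynomial.C_eq_natCast, mul_assoc,
          ← Polynomial.C_mul, Polynomial.coeff_mul_C, Polynomial.coeff_X_pow, if_neg hj.symm,
          zero_mul]
      · intro hj
        exact absurd (Finset.mem_range.mpr hi) hj
    rw [h4] at h3
    have h5 : ((2 * m).choose i : k) ≠ 0 := by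
      exact_mod_cast (Nat.choose_pos (by omega)).ne'
    exact (Submodule.smul_mem_iff _ h5).mp h3
  have h6 : Polynomial.degreeLT k (2 * m + 1) ≤ (U k m).map ψ.toLinearMap := by
    rw [Polynomial.degreeLT_eq_span_X_pow, Submodule.span_le]
    intro p hp
    obtain ⟨i, hi, rfl⟩ := Finset.mem_image.mp hp
    exact h2 i (Finset.mem_range.mp hi)
  have h7 : Module.finrank k (Polynomial.degreeLT k (2 * m + 1)) = 2 * m + 1 := by
    rw [(Polynomial.degreeLTEquiv k (2 * m + 1)).finrank_eq]
    simp
  rw [← h7]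
  exact (Submodule.finrank_mono h6).trans (Submodule.finrank_map_le _ _)

/-- The operator `∂_x ∂_z - ∂_y ^ 2`. -/
noncomputable def lap (k : Type*) [Field k] :
    MvPolynomial (Fin 3) k →ₗ[k] MvPolynomial (Fin 3) k :=
  (pderiv 0).toLinearMap ∘ₗ (pderiv 2).toLinearMap -
    (pderiv 1).toLinearMap ∘ₗ (pderiv 1).toLinearMap

lemma lap_apply (f : MvPolynomial (Fin 3) k) :
    lap k f = pderiv 0 (pderiv 2 f) - pderiv 1 (pderiv 1 f) := rfl

lemma pderiv_lin (s : k) (i : Fin 3) : pderiv i (lin s) = C (s ^ (i : ℕ)) := by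
  unfold lin
  rw [← map_pow]
  fin_cases i <;> simp [pderiv_X]

lemma pderiv_lin_pow (s : k) (i : Fin 3) (n : ℕ) :
    pderiv i (lin s ^ n) = C (n * s ^ (i : ℕ)) * lin s ^ (n - 1) := by
  rw [pderiv_pow, pderiv_lin, map_mul, map_natCast]
  ring

lemma lap_pow (s : k) (n : ℕ) : lap k (lin s ^ n) = 0 := by
  simp only [lap_apply, pderiv_lin_pow, pderiv_C_mul]
  simp only [map_mul, map_pow, Fin.val_zero, Fin.val_one, Fin.val_two]
  ring

lemma lap_mul (s t : k) (n : ℕ) : lap k (lin s ^ (n + 1) * lin t ^ (n + 1)) =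
    (((n + 1 : ℕ) : k) ^ 2 * (s - t) ^ 2) • (lin s ^ n * lin t ^ n) := by
  simp only [lap_apply, pderiv_mul, map_add, pderiv_lin_pow, pderiv_C, mul_assoc,
    Nat.add_sub_cancel, smul_eq_C_mul]
  simp only [map_mul, map_pow, map_sub, Fin.val_zero, Fin.val_one, Fin.val_two]
  ring

lemma choose_three (a : ℕ) : (3 + a - 1).choose a = (a + 2).choose 2 := by
  rw [show 3 + a - 1 = a + 2 by omega]
  exact Nat.choose_symm_add

lemma two_mul_choose (a : ℕ) : 2 * (a + 2).choose 2 = (a + 2) * (a + 1) := by
  have h : ((2 * (a + 2).choose 2 : ℕ) : ℚ) = ((a + 2) * (a + 1) : ℕ) := by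
    push_cast [Nat.cast_choose_two]
    ring
  exact_mod_cast h

/-- Products of two `q`-th powers span all forms of degree `2 q`. -/
lemma U_mul_U [CharZero k] (q : ℕ) :
    U k q * U k q = homogeneousSubmodule (Fin 3) k (2 * q) := by
  have hle : ∀ q, U k q * U k q ≤ homogeneousSubmodule (Fin 3) k (2 * q) := fun q => by
    rw [two_mul, T_add]
    exact mul_le_mul' (U_le q) (U_le q)
  induction q with
  | zero =>
    refine le_antisymm (hle 0) ?_
    rw [mul_zero, homogeneousSubmodule_zero, Submodule.one_le]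
    simpa using Submodule.mul_mem_mul (pow_mem_U (0 : k) 0) (pow_mem_U (0 : k) 0)
  | succ q ih =>
    have hfin : Module.Finite k (U k (q + 1) * U k (q + 1) : Submodule k _) :=
      Submodule.finiteDimensional_of_le (hle (q + 1))
    have h1 := finrank_map_add (lap k) (U k (q + 1) * U k (q + 1))
    have h2 : U k q * U k q ≤ (U k (q + 1) * U k (q + 1)).map (lap k) := by
      conv_lhs => rw [U, Submodule.span_mul_span]
      rw [Submodule.span_le]
      rintro _ ⟨_, ⟨s, rfl⟩, _, ⟨t, rfl⟩, rfl⟩
      refine lin_dense s t q (((U k (q + 1) * U k (q + 1)).map (lap k)).comap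
        (LinearMap.mulLeft k (lin s ^ q))) fun u hu => ?_
      have hc : (((q + 1 : ℕ) : k) ^ 2 * (s - u) ^ 2) ≠ 0 :=
        mul_ne_zero (pow_ne_zero _ (Nat.cast_ne_zero.mpr (by omega)))
          (pow_ne_zero _ (sub_ne_zero.mpr hu.symm))
      rw [Submodule.mem_comap, LinearMap.mulLeft_apply, ← Submodule.smul_mem_iff _ hc, ← lap_mul]
      exact Submodule.mem_map_of_mem
        (Submodule.mul_mem_mul (pow_mem_U s (q + 1)) (pow_mem_U u (q + 1)))
    have h3 : U k (2 * (q + 1)) ≤ (U k (q + 1) * U k (q + 1)) ⊓ LinearMap.ker (lap k) := by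
      rw [U, Submodule.span_le]
      rintro _ ⟨s, rfl⟩
      refine ⟨?_, lap_pow s _⟩
      have := Submodule.mul_mem_mul (pow_mem_U s (q + 1)) (pow_mem_U s (q + 1))
      rwa [← pow_add, ← two_mul] at this
    have h4 := Submodule.finrank_mono h2
    have h5 := (le_finrank_U (k := k) (2 * (q + 1))).trans (Submodule.finrank_mono h3)
    rw [ih, finrank_homog] at h4
    refine Submodule.eq_of_le_of_finrank_le (hle (q + 1)) ?_
    rw [finrank_homog, ← h1]
    have e1 : (3 + 2 * (q + 1) - 1).choose (2 * (q + 1)) =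
        (3 + 2 * q - 1).choose (2 * q) + (2 * (2 * (q + 1)) + 1) := by
      rw [choose_three, choose_three]
      have e2 := two_mul_choose (2 * (q + 1))
      have e3 := two_mul_choose (2 * q)
      nlinarith
    omega

end Pool.Agent.Lib.MP_63e4a9_ag
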