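import Pool.Agent.Lib.MP_63e4a9_ag.Harm

/-!
Curves on the surface of `q`-th powers of binary quadratic forms in `P ^ (2 q)`.
-/

open MvPolynomial

namespace Pool.Agent.Lib.MP_63e4a9_ag

variable {k : Type*} [Field k]

attribute [local instance] MvPolynomial.gradedAlgebra

/-- The coefficients of `(x + s y + s ^ 2 z) ^ q`. -/
noncomputable def hw (k : Type*) [Field k] (e q : ℕ) (i : Fin (e + 1 + 1)) :
    MvPolynomial (Fin 3) k := (linPow k q).coeff i

noncomputable def Psi (k : Type*) [Field k] (e q : ℕ) :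
    MvPolynomial (Fin (e + 1 + 1)) k →ₐ[k] MvPolynomial (Fin 3) k := aeval (hw k e q)

/-- The image of the degree `m` forms. -/
noncomputable def V (k : Type*) [Field k] (e q m : ℕ) : Submodule k (MvPolynomial (Fin 3) k) :=
  (homogeneousSubmodule (Fin (e + 1 + 1)) k m).map (Psi k e q).toLinearMap

/-- The ideal of the image of the plane curve. -/
noncomputable def oddIdeal (k : Type*) [Field k] (e q c : ℕ) :
    Ideal (MvPolynomial (Fin (e + 1 + 1)) k) :=
  (Ideal.span {F k c}).comap (Psi k e q)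

variable {e q : ℕ}

lemma mem_oddIdeal {c : ℕ} {f : MvPolynomial (Fin (e + 1 + 1)) k} :
    f ∈ oddIdeal k e q c ↔ F k c ∣ Psi k e q f := by
  simp [oddIdeal, Ideal.mem_comap, Ideal.mem_span_singleton]

lemma odd_prime (c : ℕ) : (oddIdeal k e q c).IsPrime := by
  have : (Ideal.span {F k c}).IsPrime :=
    (Ideal.span_singleton_prime (F_prime c).ne_zero).mpr (F_prime c)
  exact Ideal.comap_isPrime _ _

lemma V_pow (m : ℕ) : V k e q m = V k e q 1 ^ m := by
  unfold V
  rw [← homogeneousSubmodule_one_pow _ m, Submodule.map_pow]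

lemma hw_mem (i : Fin (e + 1 + 1)) : hw k e q i ∈ V k e q 1 :=
  ⟨X i, isHomogeneous_X k i, by simp [Psi]⟩

lemma U_le_V (he : e + 1 = 2 * q) : U k q ≤ V k e q 1 := by
  rw [U, Submodule.span_le]
  rintro _ ⟨s, rfl⟩
  have h := eval_mem_of_coeff _ (V k e q 1) (natDegree_linPow q)
    (fun i hi => hw_mem (k := k) (e := e) (q := q) ⟨i, by omega⟩) s
  rwa [eval_linPow] at h

lemma exists_gen [Infinite k] (G : MvPolynomial (Fin (e + 1 + 1) × Fin (e + 1)) k)
    (hG : G ≠ 0) : ∃ A : Matrix (Fin (e + 1 + 1)) (Fin (e + 1)) k,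
      eval (fun p => A p.1 p.2) G ≠ 0 ∧ A.rank = e + 1 := by
  classical
  let M : Matrix (Fin (e + 1)) (Fin (e + 1)) (MvPolynomial (Fin (e + 1 + 1) × Fin (e + 1)) k) :=
    Matrix.of fun i j => X (i.castSucc, j)
  have hev : ∀ A : Matrix (Fin (e + 1 + 1)) (Fin (e + 1)) k,
      eval (fun p => A p.1 p.2) M.det = (A.submatrix Fin.castSucc id).det := by
    intro A
    rw [RingHom.map_det]
    congr 1
    ext i j
    simp [M]
  have hM : M.det ≠ 0 := by
    intro h0
    have := hev (Matrix.of fun i j => if i = j.castSucc then 1 else 0)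
    rw [h0, map_zero] at this
    have h1 : Matrix.submatrix (Matrix.of fun (i : Fin (e + 1 + 1)) (j : Fin (e + 1)) =>
        if i = j.castSucc then (1 : k) else 0) Fin.castSucc id = 1 := by
      ext i j
      simp [Matrix.one_apply]
    rw [h1, Matrix.det_one] at this
    exact zero_ne_one this
  have hGM : G * M.det ≠ 0 := mul_ne_zero hG hM
  obtain ⟨x, hx⟩ : ∃ x, eval x (G * M.det) ≠ 0 := by
    by_contra hcon
    push Not at hcon
    exact hGM (MvPolynomial.funext fun x => by rw [hcon x, map_zero])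
  rw [map_mul] at hx
  refine ⟨fun i j => x (i, j), left_ne_zero_of_mul hx, ?_⟩
  have h2 := right_ne_zero_of_mul hx
  have h3 := hev (fun i j => x (i, j))
  have h4 : (Matrix.submatrix (fun i j => x (i, j)) Fin.castSucc id :
      Matrix (Fin (e + 1)) (Fin (e + 1)) k).det ≠ 0 := by
    rw [← h3]; exact h2
  apply le_antisymm
  · simpa using
      Matrix.rank_le_width (fun i j => x (i, j) : Matrix (Fin (e + 1 + 1)) (Fin (e + 1)) k)
  · have h5 := Matrix.rank_of_isUnit _ ((Matrix.isUnit_iff_isUnit_det _).mpr (Ne.isUnit h4))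
    have h6 := Matrix.rank_submatrix_le
      (fun i j => x (i, j) : Matrix (Fin (e + 1 + 1)) (Fin (e + 1)) k) Fin.castSucc
      (Equiv.refl _)
    simp only [Fintype.card_fin] at h5
    exact h5.symm.le.trans h6

variable [CharZero k]

lemma hw_homog (i : Fin (e + 1 + 1)) : (hw k e q i).IsHomogeneous q :=
  coeff_mem_of_eval (linPow k q) (homogeneousSubmodule (Fin 3) k q) (Set.infinite_univ (α := k))
    (fun s _ => by rw [eval_linPow]; exact lin_pow_homog s q) i

lemma Psi_homog {f : MvPolynomial (Fin (e + 1 + 1)) k} {m : ℕ} (hf : f.IsHomogeneous m) :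
    (Psi k e q f).IsHomogeneous (q * m) :=
  hf.aeval (hw k e q) hw_homog

lemma Psi_comp (hq : 0 < q) (f : MvPolynomial (Fin (e + 1 + 1)) k) (m : ℕ) :
    Psi k e q (homogeneousComponent m f) = homogeneousComponent (q * m) (Psi k e q f) := by
  induction f using MvPolynomial.induction_on' with
  | monomial u a =>
    have h1 : (monomial u a : MvPolynomial (Fin (e + 1 + 1)) k).IsHomogeneous u.degree :=
      isHomogeneous_monomial a rfl
    have h2 := Psi_homog (q := q) h1
    rw [homogeneousComponent_of_mem h1, homogeneousComponent_of_mem h2]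
    by_cases h : m = u.degree
    · simp [h]
    · have : ¬ q * m = q * u.degree := fun h' => h (Nat.eq_of_mul_eq_mul_left hq h')
      rw [if_neg h, if_neg this, map_zero]
  | add p q hp hq => simp [hp, hq]

lemma V_le (m : ℕ) : V k e q m ≤ homogeneousSubmodule (Fin 3) k (q * m) := by
  rintro _ ⟨f, hf, rfl⟩
  exact Psi_homog hf

lemma V_two (he : e + 1 = 2 * q) : V k e q 2 = homogeneousSubmodule (Fin 3) k (q * 2) := by
  refine le_antisymm (V_le 2) ?_
  rw [mul_comm, ← U_mul_U, V_pow 2, sq]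
  exact mul_le_mul' (U_le_V he) (U_le_V he)

lemma V_mul_T (he : e + 1 = 2 * q) : V k e q 1 * homogeneousSubmodule (Fin 3) k q =
    homogeneousSubmodule (Fin 3) k (q * 2) := by
  have h1 : V k e q 1 ≤ homogeneousSubmodule (Fin 3) k q := by simpa using V_le (k := k) 1
  apply le_antisymm
  · rw [mul_two, T_add]
    exact mul_le_mul' h1 le_rfl
  · rw [← V_two he, V_pow 2, sq]
    exact mul_le_mul' le_rfl h1

lemma V_eq (he : e + 1 = 2 * q) (m : ℕ) :
    V k e q (m + 2) = homogeneousSubmodule (Fin 3) k (q * (m + 2)) := by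
  induction m with
  | zero => exact V_two he
  | succ m ih =>
    rw [V_pow, show m + 1 + 2 = (m + 2) + 1 from rfl, pow_succ', ← V_pow, ih,
      show q * (m + 2) = q + q * (m + 1) by ring, T_add, ← mul_assoc, V_mul_T he, ← T_add]
    congr 1
    ring

lemma choose_two' (a : ℕ) : (a + 1 + 2 - 1).choose 2 = (a + 2).choose 2 := rfl

lemma Psi_inj_two (he : e + 1 = 2 * q) {f : MvPolynomial (Fin (e + 1 + 1)) k}
    (hf : f.IsHomogeneous 2) (h : Psi k e q f = 0) : f = 0 := by
  have h1 := finrank_map_add (Psi k e q).toLinearMap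
    (homogeneousSubmodule (Fin (e + 1 + 1)) k 2)
  have h2 : (homogeneousSubmodule (Fin (e + 1 + 1)) k 2).map (Psi k e q).toLinearMap =
      homogeneousSubmodule (Fin 3) k (q * 2) := V_two he
  rw [h2, finrank_homog, finrank_homog, choose_three, choose_two',
    show e + 1 + 2 = q * 2 + 2 by omega] at h1
  have h3 : Module.finrank k (homogeneousSubmodule (Fin (e + 1 + 1)) k 2 ⊓
      LinearMap.ker (Psi k e q).toLinearMap : Submodule k _) = 0 := by omega
  have : Module.Finite k (homogeneousSubmodule (Fin (e + 1 + 1)) k 2 ⊓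
      LinearMap.ker (Psi k e q).toLinearMap : Submodule k _) :=
    Submodule.finiteDimensional_inf_left _ _
  rw [Submodule.finrank_eq_zero] at h3
  have : f ∈ (homogeneousSubmodule (Fin (e + 1 + 1)) k 2 ⊓
      LinearMap.ker (Psi k e q).toLinearMap : Submodule k _) := ⟨hf, h⟩
  rw [h3] at this
  exact this

lemma odd_two (he : e + 1 = 2 * q) {c : ℕ} (hc : q * 2 ≤ c) {f : MvPolynomial (Fin (e + 1 + 1)) k}
    (hf : f.IsHomogeneous 2) (h : f ∈ oddIdeal k e q c) : f = 0 :=
  Psi_inj_two he hf (eq_zero_of_dvd (Psi_homog hf) hc (mem_oddIdeal.mp h))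

lemma odd_X0 (he : e + 1 = 2 * q) {c : ℕ} (hc : q * 2 ≤ c) :
    (X 0 : MvPolynomial (Fin (e + 1 + 1)) k) ∉ oddIdeal k e q c := fun h =>
  mul_ne_zero (X_ne_zero 0) (X_ne_zero 0) (odd_two he hc
    ((isHomogeneous_X k 0).mul (isHomogeneous_X k 0)) (Ideal.mul_mem_left _ _ h))

lemma odd_variety (he : e + 1 = 2 * q) {c : ℕ} (hc : q * 2 ≤ c) :
    IsVarietyIdeal (oddIdeal k e q c) := by
  refine ⟨odd_prime c, fun f hf m => ?_, fun h => odd_X0 he hc (h (Ideal.subset_span ⟨0, rfl⟩))⟩
  rw [mem_oddIdeal] at hf ⊢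
  obtain ⟨p, hp⟩ := hf
  rw [Psi_comp (by omega), hp]
  by_cases h : c + 1 ≤ q * m
  · rw [comp_mul_of_le (F_homog c) p h]
    exact dvd_mul_right _ _
  · rw [comp_mul_of_not_le (F_homog c) p h]
    exact dvd_zero _

lemma odd_noQuadric (he : e + 1 = 2 * q) {c : ℕ} (hc : q * 2 ≤ c) :
    NoHypersurface (oddIdeal k e q c) 2 := by
  intro f hf h2
  obtain ⟨r, hr⟩ := mem_saturation.mp hf
  have h1 : f * X 0 ^ r ∈ oddIdeal k e q c :=
    hr _ (Ideal.pow_mem_pow (I := irrel k (e + 1)) (Ideal.subset_span ⟨0, rfl⟩) r)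
  rcases (odd_prime c).mem_or_mem h1 with h | h
  · exact odd_two he hc h2 h
  · exact absurd ((odd_prime c).mem_of_pow_mem r h) (odd_X0 he hc)

lemma hilbertFn_odd (he : e + 1 = 2 * q) (c m : ℕ) (hm : c + 1 ≤ q * (m + 2)) :
    hilbertFn (oddIdeal k e q c) (m + 2) + (q * (m + 2) - (c + 1) + 2).choose 2 =
      (q * (m + 2) + 2).choose 2 := by
  set n := q * (m + 2) with hn
  have hinj : Function.Injective
      (Ideal.quotientMapₐ (Ideal.span {F k c}) (Psi k e q) (I := oddIdeal k e q c) le_rfl) :=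
    Ideal.quotientMap_injective
  have e1 : hilbertFn (oddIdeal k e q c) (m + 2) = Module.finrank k
      ((homogeneousSubmodule (Fin 3) k n).map
        (Ideal.Quotient.mkₐ k (Ideal.span {F k c})).toLinearMap) := by
    unfold hilbertFn
    rw [← V_eq he, V, ← Submodule.map_comp]
    rw [(Submodule.equivMapOfInjective (Ideal.quotientMapₐ (Ideal.span {F k c}) (Psi k e q)
      (I := oddIdeal k e q c) le_rfl).toLinearMap hinj _).finrank_eq, ← Submodule.map_comp]
    rfl
  have e2 := finrank_map_add (Ideal.Quotient.mkₐ k (Ideal.span {F k c})).toLinearMap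
    (homogeneousSubmodule (Fin 3) k n)
  have e3 : (homogeneousSubmodule (Fin 3) k n ⊓
      LinearMap.ker (Ideal.Quotient.mkₐ k (Ideal.span {F k c})).toLinearMap : Submodule k _) =
      (homogeneousSubmodule (Fin 3) k (n - (c + 1))).map (LinearMap.mulLeft k (F k c)) := by
    ext p
    simp only [Submodule.mem_inf, mem_homogeneousSubmodule, LinearMap.mem_ker,
      AlgHom.toLinearMap_apply, Ideal.Quotient.mkₐ_eq_mk, Ideal.Quotient.eq_zero_iff_mem,
      Ideal.mem_span_singleton, Submodule.mem_map, LinearMap.mulLeft_apply]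
    constructor
    · rintro ⟨hp, g, rfl⟩
      refine ⟨homogeneousComponent (n - (c + 1)) g, homogeneousComponent_isHomogeneous _ _, ?_⟩
      rw [← comp_mul_of_le (F_homog c) g hm, homogeneousComponent_eq_self hp]
    · rintro ⟨g, hg, rfl⟩
      refine ⟨?_, dvd_mul_right _ _⟩
      have := (F_homog (k := k) c).mul hg
      rwa [show c + 1 + (n - (c + 1)) = n by omega] at this
  have hinj2 : Function.Injective (LinearMap.mulLeft k (F k c)) :=
    mul_right_injective₀ (F_prime c).ne_zero
  rw [e3, ← (Submodule.equivMapOfInjective _ hinj2 _).finrank_eq, finrank_homog,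
    finrank_homog, ← e1, choose_three, choose_three] at e2
  exact e2

lemma odd_dimDeg (he : e + 1 = 2 * q) (c : ℕ) :
    HasDimDeg (oddIdeal k e q c) 1 (q * (c + 1)) := by
  have hq : 0 < q := by omega
  have hq' : (0 : ℚ) < q := by exact_mod_cast hq
  refine ⟨by positivity, Polynomial.C (q * (c + 1 : ℚ)) * Polynomial.X +
    Polynomial.C ((3 * (c + 1 : ℚ) - (c + 1) ^ 2) / 2), ⟨c + 2, ?_⟩, ?_, ?_⟩
  · intro m hm
    obtain ⟨m, rfl⟩ : ∃ m', m = m' + 2 := ⟨m - 2, by omega⟩
    have hm2 : c + 1 ≤ q * (m + 2) := le_trans (by omega) (Nat.le_mul_of_pos_left _ hq)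
    have h := hilbertFn_odd (k := k) he c m hm2
    obtain ⟨a, ha⟩ : ∃ a, q * (m + 2) = a + (c + 1) := ⟨q * (m + 2) - (c + 1), by omega⟩
    rw [ha, show a + (c + 1) - (c + 1) = a by omega] at h
    have h' := congrArg (Nat.cast : ℕ → ℚ) h
    push_cast [Nat.cast_choose_two] at h'
    have ha' := congrArg (Nat.cast : ℕ → ℚ) ha
    push_cast at ha'
    simp only [Polynomial.eval_add, Polynomial.eval_mul, Polynomial.eval_C, Polynomial.eval_X]
    push_cast
    have : (a : ℚ) = q * (m + 2) - (c + 1) := by linarith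
    rw [this] at h'
    linarith
  · apply Polynomial.natDegree_linear
    positivity
  · rw [Polynomial.leadingCoeff_linear (by positivity)]
    simp

/-- Every hyperplane section of the surface lies on a quadric. -/
lemma odd_section (he : e + 1 = 2 * q) (hq : 2 ≤ q) (I : Ideal (MvPolynomial (Fin (e + 1 + 1)) k))
    (hI : ∀ f, Psi k e q f = 0 → f ∈ I)
    (A : Matrix (Fin (e + 1 + 1)) (Fin (e + 1)) k) (hA : A.rank = e + 1) :
    ¬ NoHypersurface (I.map (pullback A)) 2 := by
  obtain ⟨B, hB⟩ := exists_left_inv A hA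
  obtain ⟨c, hc, hc0⟩ : ∃ c : Fin (e + 1 + 1) → k, Matrix.vecMul c A = 0 ∧ c ≠ 0 := by
    have := LinearMap.ker_ne_bot_of_finrank_lt (f := A.vecMulLinear) (by simp)
    obtain ⟨c, hc, hc0⟩ := (Submodule.ne_bot_iff _).mp this
    exact ⟨c, hc, hc0⟩
  set h : MvPolynomial (Fin (e + 1 + 1)) k := ∑ i, C (c i) * X i with hh
  have h_homog : h.IsHomogeneous 1 :=
    IsHomogeneous.sum _ _ _ fun j _ => isHomogeneous_C_mul_X _ _
  have h_ne : h ≠ 0 := by
    intro h0
    apply hc0
    ext i
    have := congrArg (eval (Pi.single i (1 : k))) h0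
    simpa [hh, Pi.single_apply] using this
  have hA0 : pullback A h = 0 := by
    rw [hh, pullback_lin, hc]; simp
  have hPhi : Psi k e q h ≠ 0 := by
    intro h0
    have := Psi_inj_two he (h_homog.mul h_homog) (by rw [map_mul, h0, mul_zero])
    exact h_ne (mul_self_eq_zero.mp this)
  have hq2 : q * 1 + q = q * 2 := by ring
  let θ : (homogeneousSubmodule (Fin (e + 1)) k 2 × homogeneousSubmodule (Fin 3) k q) →ₗ[k]
      homogeneousSubmodule (Fin 3) k (q * 2) :=
    LinearMap.codRestrict _
      (LinearMap.coprod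
        (((Psi k e q).comp (pullback B)).toLinearMap ∘ₗ Submodule.subtype _)
        (-(LinearMap.mulLeft k (Psi k e q h)) ∘ₗ Submodule.subtype _))
      (by
        rintro ⟨p, g⟩
        have h1 := Psi_homog (q := q) (pullback_homog B p.2)
        have h2 := (Psi_homog (q := q) h_homog).mul g.2
        rw [hq2] at h2
        exact Submodule.add_mem _ h1 (Submodule.neg_mem _ h2))
  have hθ := LinearMap.ker_ne_bot_of_finrank_lt (f := θ) (by
    rw [Module.finrank_prod, finrank_homog, finrank_homog, finrank_homog, choose_three,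
      choose_three, choose_two']
    have e1 := two_mul_choose e
    have e2 := two_mul_choose q
    have e3 := two_mul_choose (q * 2)
    have e4 : e + 2 = 2 * q + 1 := by omega
    rw [he, e4] at e1
    rw [e4]
    nlinarith)
  obtain ⟨⟨p, g⟩, hqg, hne⟩ := (Submodule.ne_bot_iff _).mp hθ
  have hqg' : Psi k e q (pullback B p) = Psi k e q h * g := by
    have := congrArg Subtype.val (LinearMap.mem_ker.mp hqg)
    simpa [θ, add_neg_eq_zero] using this
  have hp : (p : MvPolynomial (Fin (e + 1)) k) ≠ 0 := by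
    intro h0
    rw [h0, map_zero, map_zero] at hqg'
    have hg : (g : MvPolynomial (Fin 3) k) = 0 := (mul_eq_zero.mp hqg'.symm).resolve_left hPhi
    apply hne
    ext1
    · exact Subtype.ext h0
    · exact Subtype.ext hg
  intro hN
  refine hp (hN p ?_ p.2)
  have key : ∀ i, (p : MvPolynomial (Fin (e + 1)) k) * pullback A (X i) ∈
      I.map (pullback A) := by
    intro i
    have : hw k e q i * g ∈ V k e q 2 := by
      rw [V_two he, mul_two]; exact (hw_homog i).mul g.2
    obtain ⟨G, -, hG⟩ := this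
    have h1 : pullback B p * X i - h * G ∈ I := by
      apply hI
      have hG' : Psi k e q G = hw k e q i * g := hG
      have hX : Psi k e q (X i) = hw k e q i := by simp [Psi]
      rw [map_sub, map_mul, map_mul, hqg', hG', hX]
      ring
    have h2 := Ideal.mem_map_of_mem (pullback A) h1
    rwa [map_sub, map_mul, map_mul, hA0, zero_mul, sub_zero, pullback_pullback A B hB] at h2
  rw [mem_saturation]
  refine ⟨1, fun y hy => ?_⟩
  rw [pow_one] at hy
  refine Submodule.span_induction ?_ ?_ ?_ ?_ hy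
  · rintro _ ⟨j, rfl⟩
    rw [← pullback_pullback A B hB (X j), pullback_X, map_sum, Finset.mul_sum]
    refine Ideal.sum_mem _ fun i _ => ?_
    rw [map_mul, mul_left_comm]
    exact Ideal.mul_mem_left _ _ (key i)
  · simp
  · intro a b _ _ ha hb
    rw [mul_add]; exact Ideal.add_mem _ ha hb
  · intro a b _ hb
    rw [smul_eq_mul, mul_left_comm]; exact Ideal.mul_mem_left _ _ hb

lemma odd_not_ND (he : e + 1 = 2 * q) (hq : 2 ≤ q) (c : ℕ) : ¬ ND (oddIdeal k e q c) e 2 := by
  intro h
  obtain ⟨G, hG, h⟩ := h e le_rfl (by omega)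
  obtain ⟨A, hA, hr⟩ := exists_gen G hG
  refine odd_section he hq _ (fun f hf => ?_) A hr (h A hA hr)
  rw [mem_oddIdeal, hf]
  exact dvd_zero _

end Pool.Agent.Lib.MP_63e4a9_ag
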